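import Pool.Agent.Q33.FP.Tfae
import Pool.Agent.W619.PQ.Curve

set_option autoImplicit false

/-!
# Pseudo-hyperbolicity for maps with few terms is equivalent to not being uniruled

`k` is an algebraically closed field of characteristic zero, `X` an irreducible closed subset of the
projective `n`-space over `k`, given by any number of forms. A curve `C` is given by its function
field `K`, `canDeg k K` is `2 g - 2`, a map from `C` to `X` is a point `x` of `X` over `K`, its degree
is the height `ht k x`.

`TermPt r M S x`: the homogeneous coordinates of `x` are linear combinations with constant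
coefficients of `r` nonzero functions on `C` with orders divisible by `M` at all points outside the
finite set `S` (for instance of `r` `M`-th powers of any functions, with empty `S`, or of `r` units of
the affine curve, the complement of `S`, with any `M`). Every map is of this form for some `r`.

(1) For all `r` and `d` there is ONE constant `A` such that, for all `k`, `n` and all irreducible `X`
given by forms of degree at most `d` that are not uniruled (for instance of general type), there is a
proper closed subset `Z` of `X` such that, for all points `x = ∑ u j v j` of `X` over all `K` outside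
`Z`, with vectors `v j` over `K` and `u j` with orders divisible by some
`M ≥ (C(r + d - 1, d) - 1) ^ 2` outside `S`: `ht x ≤ A (max (2 g - 2 + |S|) 0 + ht v)`.

(2) For every irreducible `X` the following are equivalent:
  (a) `X` is not uniruled;
  (b) for every `r` there are `A`, `M0` and a proper closed subset `Z` of `X` such that
      `deg f ≤ A max (2 g - 2 + |S|) 0` for the maps `f` to `X`, not to `Z`, with `r` terms, `M ≥ M0`
      (in particular for the maps of pointed curves `(C, c)` to `(X, x)` with `x` outside `Z`);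
  (c) the same for complete curves, `deg f ≤ A max (2 g - 2) 0`;
  (d) for every `r` there are `M` and a proper closed subset `Z` such that on every curve the degrees
      of the maps with `r` terms to `X`, not to `Z`, are bounded;
  (e) the same on some curve, which can depend on `Z`;
  (f) for every `r` there are `M` and a proper closed subset `Z` such that all maps with `r` terms
      from curves of genus at most one to `X`, not to `Z`, are constant.
-/

namespace Pool.Agent.Results.MP_5b1cbc_ag.FewTermPointed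

open FF MvPolynomial Pool.Agent.W603.LV Pool.Agent.Q33.FP
open Pool.Agent.H533R3.SL (Uniruled exists_hyper)

/-- `X` is given by forms of degree at most `d` and is irreducible. -/
def IrrForms {k : Type} [Field k] {n : ℕ} (X : Set (MvPolynomial (Fin (n + 1)) k)) (d : ℕ) : Prop :=
  (∀ f ∈ X, ∃ e, e ≤ d ∧ f.IsHomogeneous e) ∧ (Ideal.span X).IsPrime

/-- `G = 0` defines a proper closed subset of `X`. -/
def Proper {k : Type} [Field k] {n : ℕ} (X : Set (MvPolynomial (Fin (n + 1)) k))
    (G : MvPolynomial (Fin (n + 1)) k) : Prop :=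
  (∃ e, G.IsHomogeneous e) ∧ G ∉ Ideal.span X

/-- The height inequality with the constant `A` for the points `∑ u j v j` of `X` outside `G = 0`;
the orders of the `u j` outside `S` are multiples of some `M ≥ (C(r + d - 1, d) - 1) ^ 2`. -/
def Inequality {k : Type} [Field k] {n : ℕ} (X : Set (MvPolynomial (Fin (n + 1)) k)) (r d A : ℕ)
    (G : MvPolynomial (Fin (n + 1)) k) : Prop :=
  ∀ (K : Type) [Field K] [Algebra k K] [IsFF k K] (S : Finset (Place k K)) (M : ℕ)
    (v : Fin r → Fin (n + 1) → K) (u : Fin r → K), 0 < M → ((r + d - 1).choose d - 1) ^ 2 ≤ M →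
    Units S M u → (∀ f ∈ X, aeval (pt v u) f = 0) → aeval (pt v u) G ≠ 0 → pt v u ≠ 0 →
    ht k (pt v u) ≤ A * (max (canDeg k K + S.card) 0 + vht k v)

/-- All points with `r` terms over `K`, with the exponent `M` and with `S`, on `X` and outside
`G = 0` have height at most `B`. -/
def HeightLe {k : Type} [Field k] {n : ℕ} (X : Set (MvPolynomial (Fin (n + 1)) k)) (r M : ℕ)
    (G : MvPolynomial (Fin (n + 1)) k) {K : Type} [Field K] [Algebra k K] (S : Finset (Place k K))
    (B : ℤ) : Prop :=
  ∀ x : Fin (n + 1) → K, TermPt r M S x → x ≠ 0 → (∀ f ∈ X, aeval x f = 0) → aeval x G ≠ 0 →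
    ht k x ≤ B

theorem part1 (r d : ℕ) (hd : 1 ≤ d) : ∃ A : ℕ, ∀ (k : Type) [Field k] [IsAlgClosed k]
    [CharZero k] (n : ℕ) (X : Set (MvPolynomial (Fin (n + 1)) k)), IrrForms X d →
      ¬ Uniruled (Ideal.span X) → ∃ G, Proper X G ∧ Inequality X r d A G := by
  obtain ⟨A, hA⟩ := proj_main r d
  refine ⟨A, ?_⟩
  intro k _ _ _ n X hX hnu
  obtain ⟨G, hG1, hG2, hG3⟩ := exists_hyper X hX.2 hnu d hd hX.1 r
  refine ⟨G, ⟨hG1, hG2⟩, ?_⟩
  intro K _ _ _ S M v u hM0 hM hu hx hG hx0
  rcases hA (k := k) (κ := k) (K := K) X hX.1 le_rfl (fun f _ => (cht_const f).le) v u S hM0 hM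
    hu hx0 hx with h1 | h1
  · exact absurd (h1.2 G fun L _ _ c l hz hc => hG3 L c l hz hc) hG
  · rw [add_zero] at h1
    exact h1

theorem result :
    -- (1)
    (∀ r d : ℕ, 1 ≤ d → ∃ A : ℕ, ∀ (k : Type) [Field k] [IsAlgClosed k] [CharZero k] (n : ℕ)
      (X : Set (MvPolynomial (Fin (n + 1)) k)), IrrForms X d → ¬ Uniruled (Ideal.span X) →
      ∃ G, Proper X G ∧ Inequality X r d A G) ∧
    -- (2)
    (∀ (k : Type) [Field k] [IsAlgClosed k] [CharZero k] (n d : ℕ)
      (X : Set (MvPolynomial (Fin (n + 1)) k)), IrrForms X d → List.TFAE [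
        -- (a)
        ¬ Uniruled (Ideal.span X),
        -- (b)
        ∀ r, ∃ (A M0 : ℕ) (G : _), Proper X G ∧ ∀ (K : Type) [Field K] [Algebra k K] [IsFF k K]
          (S : Finset (Place k K)) (M : ℕ), M0 ≤ M →
            HeightLe X r M G S (A * max (canDeg k K + S.card) 0),
        -- (c)
        ∀ r, ∃ (A M0 : ℕ) (G : _), Proper X G ∧ ∀ (K : Type) [Field K] [Algebra k K] [IsFF k K]
          (M : ℕ), M0 ≤ M → HeightLe X r M G (∅ : Finset (Place k K)) (A * max (canDeg k K) 0),
        -- (d)
        ∀ r, ∃ (M : ℕ) (G : _), 0 < M ∧ Proper X G ∧ ∀ (K : Type) [Field K] [Algebra k K]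
          [IsFF k K], ∃ B : ℕ, HeightLe X r M G (∅ : Finset (Place k K)) B,
        -- (e)
        ∀ r, ∃ (M : ℕ) (G : _), 0 < M ∧ Proper X G ∧ ∃ (K : Type) (_ : Field K) (_ : Algebra k K)
          (_ : IsFF k K) (B : ℕ), HeightLe X r M G (∅ : Finset (Place k K)) B,
        -- (f)
        ∀ r, ∃ (M : ℕ) (G : _), 0 < M ∧ Proper X G ∧ ∀ (K : Type) [Field K] [Algebra k K]
          [IsFF k K], canDeg k K ≤ 0 → HeightLe X r M G (∅ : Finset (Place k K)) 0]) := by
  refine ⟨part1, ?_⟩
  intro k _ _ _ n d0 X hX0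
  obtain ⟨d, hd, hX⟩ : ∃ d, 1 ≤ d ∧ IrrForms X d := ⟨max d0 1, le_max_right _ _, fun f hf => by
    obtain ⟨e, he, hfe⟩ := hX0.1 f hf
    exact ⟨e, he.trans (le_max_left _ _), hfe⟩, hX0.2⟩
  have : IsFF k (RatFunc k) := isFF_line k
  tfae_have 1 → 2 := by
    intro hnu r
    obtain ⟨A, hA⟩ := part1 r d hd
    obtain ⟨G, hG1, hG2⟩ := hA k n X hX hnu
    refine ⟨A, ((r + d - 1).choose d - 1) ^ 2 + 1, G, hG1, ?_⟩
    intro K _ _ _ S M hM x hx hx0 hxX hxG
    obtain ⟨c, u, hu, hxe⟩ := hx
    have hxe' : x = pt (fun j i => algebraMap k K (c j i)) u := funext hxe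
    have h1 := hG2 K S M (fun j i => algebraMap k K (c j i)) u (by omega) (by omega) hu
      (by rw [← hxe']; exact hxX) (by rw [← hxe']; exact hxG) (by rw [← hxe']; exact hx0)
    have h2 : vht k (fun j i => algebraMap k K (c j i)) = 0 :=
      ht_of_const (K := K) (fun p : Fin r × Fin (n + 1) => c p.1 p.2)
    rw [h2, add_zero, ← hxe'] at h1
    exact h1
  tfae_have 2 → 3 := by
    intro h r
    obtain ⟨A, M0, G, hG, hA⟩ := h r
    refine ⟨A, M0, G, hG, fun K _ _ _ M hM => ?_⟩
    have h1 := hA K ∅ M hM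
    rw [Finset.card_empty, Nat.cast_zero, add_zero] at h1
    exact h1
  tfae_have 3 → 4 := by
    intro h r
    obtain ⟨A, M0, G, hG, hA⟩ := h r
    refine ⟨M0 + 1, G, Nat.succ_pos _, hG, fun K _ _ _ => ⟨(A * max (canDeg k K) 0).toNat,
      fun x hx hx0 hxX hxG => ?_⟩⟩
    exact (hA K (M0 + 1) (Nat.le_succ _) x hx hx0 hxX hxG).trans (Int.self_le_toNat _)
  tfae_have 4 → 5 := by
    intro h r
    obtain ⟨M, G, hM, hG, h1⟩ := h r
    obtain ⟨B, hB⟩ := h1 (RatFunc k)
    exact ⟨M, G, hM, hG, RatFunc k, inferInstance, inferInstance, inferInstance, B, hB⟩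
  tfae_have 5 → 1 := by
    intro h hun
    obtain ⟨r, w, hr⟩ := uniruled_base hun
    obtain ⟨M, G, hM, hG, K, _, _, _, B, hB⟩ := h r
    obtain ⟨b, h1, h2, h3⟩ := hr G hG.1 hG.2
    obtain ⟨x, hx1, hx2, hx3, hx5, hx4⟩ := big_proj (K := K) h1 h2 h3 hM B
    exact absurd (hB x hx1 hx2 hx3 hx5) (not_le.2 hx4)
  tfae_have 3 → 6 := by
    intro h r
    obtain ⟨A, M0, G, hG, hA⟩ := h r
    refine ⟨M0 + 1, G, Nat.succ_pos _, hG, fun K _ _ _ hK x hx hx0 hxX hxG => ?_⟩
    have h1 := hA K (M0 + 1) (Nat.le_succ _) x hx hx0 hxX hxG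
    rw [max_eq_right hK, mul_zero] at h1
    exact h1
  tfae_have 6 → 5 := by
    intro h r
    obtain ⟨M, G, hM, hG, h1⟩ := h r
    refine ⟨M, G, hM, hG, RatFunc k, inferInstance, inferInstance, inferInstance, 0,
      fun x hx hx0 hxX hxG => ?_⟩
    have h2 : canDeg k (RatFunc k) ≤ 0 := by
      rw [Pool.Agent.W619.PQ.canDeg_rational (x := (RatFunc.X : RatFunc k)) RatFunc.adjoin_X]
      norm_num
    exact h1 (RatFunc k) h2 x hx hx0 hxX hxG
  tfae_finish

end Pool.Agent.Results.MP_5b1cbc_ag.FewTermPointed
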