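import Pool.Agent.Q41.GT.Carry

/-!
# Lang's conjecture for varieties whose function field carries a map with many preperiodic points

`k` is an algebraically closed field of characteristic zero and `X` a projective variety over `k` of
dimension `w ≥ 1`, given by its function field `L` (of transcendence degree `w` over `k`) and its
generic point `x`, the homogeneous coordinates, elements of `L` whose ratios generate `L` over `k`
(`coords k x = ⊤`). `X` is any integral projective variety; no smoothness is assumed.

`Carries k d B p q`: `f = p / q` is a rational map of the projective line over `L`, of degree `d`, i.e.
an algebraic family of rational maps of degree `d` over an open subset of `X`; `f` has at least `B`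
preperiodic points with coordinates in `L` (points whose orbit is finite: rational sections of
`X × P^1 → X` which are preperiodic for the family), among them `∞`, `0` and `1` (every `f` with three
preperiodic points in `P^1(L)` is conjugate to such a map), and the variation is maximal: `L` is
algebraic over the field generated over `k` by the coefficients of `f` (the map from `X` to the space
of rational maps, modulo conjugation as `∞`, `0`, `1` are marked, is generically finite). `ratP1 p q d` is
the map `f` on `P^1(L) = L ∪ {∞}` (`Option L`).

`GeneralType k L w`: `X` is of general type (for some `N > 0` there are `N`-canonical forms of the
function field which are regular at all prime divisors of all models, with `w` algebraically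
independent ratios).

`PseudoGeomHyp k x`: there is a proper closed subset `G = 0` of `X` such that for every point `a` of `X`
with `G(a) ≠ 0` and every pointed curve `(C, c)` over `k` (`C` is given by its function field, `c` is a
place) there are only finitely many maps from `C` to `X` with the value `a` at `c`.

Theorem: for every `d ≥ 2` there is `B` such that all such `X`, over all `k`, of all dimensions, are of
general type and pseudo-geometrically hyperbolic. So both sides of Lang's conjecture hold for the
projective varieties of this class, for example for all projective models of all irreducible
components of the moduli spaces of rational maps of degree `d` with a marked point of period `n`, `n`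
large, of their positive dimensional subvarieties which meet the locus of exact period `n`, and for
all generically finite covers of these.
-/

set_option autoImplicit false

namespace Pool.Agent.Results.MP_5b1cbc_ag.ManyPreperiodicPoints

open Polynomial Pool.Agent.W602.GT Pool.Agent.W602.RG Pool.Agent.Q41.GT

/-- See the explanation at the beginning of the file. -/
theorem result (d : ℕ) (hd : 2 ≤ d) : ∃ B : ℕ, ∀ (k L : Type) [Field k] [IsAlgClosed k]
    [CharZero k] [Field L] [Algebra k L] (w : ℕ), 1 ≤ w → Algebra.trdeg k L = w →
    ∀ p q : L[X], Carries k d B p q → ∀ (M : ℕ) (x : Fin (M + 1) → L), x ≠ 0 → coords k x = ⊤ →
    GeneralType k L w ∧ PseudoGeomHyp k x := by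
  obtain ⟨B, hB⟩ := Carries.dyn d hd
  refine ⟨B, ?_⟩
  intro k L _ _ _ _ _ w hw htr p q h M x hx hcx
  have h1 := hB k L w hw htr p q h M x hx hcx
  exact ⟨h1.1, h1.2.1⟩

end Pool.Agent.Results.MP_5b1cbc_ag.ManyPreperiodicPoints
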