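import Pool.Agent.Q96.HE.Main2

/-!
MP_5b1cbc_ag, Q1: all covers of an orbifold pair of log general type (with a second branch divisor
of multiplicity two) are of general type and pseudo-geometrically hyperbolic; for surfaces the
exceptional set is exactly the union of the curves of genus `≤ 1`, which are finite in number.

`IsOrbPair d a f e Q` (`Pool/Agent/Q186/RU/Orb.lean`): `X` is a complex projective variety of
dimension `d` with generic point `a` and function field `K`, the `f i` are forms of degree `e`, the
rational map `(f 0 : … : f n)` on `X` is generically finite onto its image (any subvariety of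
projective `n`-space), `Q` is a polynomial with `Q (1, f 1 / f 0, …, f n / f 0) ≠ 0` on `X`, and `X`
is of log general type for the boundary consisting of the prime divisors (on all models) where some
`f i / f 0` is not a unit (the toric boundary) or where `Q (1, f 1 / f 0, …)` vanishes to the first
order. `IsCover a b g e'` (`Pool/Agent/Q271/RC/Defs.lean`): `Y` is a projective variety with generic
point `b` and function field `K'`, and the forms `g 0, …, g N` define a generically finite dominant
rational map from `Y` to `X`.

`OrbOff m Q b {1} h` (`Pool/Agent/Q96/OS/Defs.lean`; `{1}` defines the empty subset of `Y`): for all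
arcs in `Y`, not contained in the zeros of the forms `h i = f i (g)`, either two of the orders of the
`h i` differ by at least `m` (contact of order at least `m` with the toric boundary), or these orders
are all equal and the order of `Q (1, h 1 / h 0, …)` is not one (no contact with the toric boundary,
and no contact of order one with `Q = 0`).

`PseudoGeomHyp ℂ b` (`Pool/Agent/W602/RG/TB.lean`): there is a proper closed subset of `Y` such that
for every pointed curve `(C, c)` and every point `x` of `Y` outside of this subset, only finitely many
maps `C → Y` map `c` to `x`. `GeomHypMod b D` (`Pool/Agent/Q96/HE/Main2.lean`): the same outside of the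
closed subset defined by the forms in `D`. `IsMap b {1} v` (`Pool/Agent/Q96/HE/Defs.lean`): `v` is a
nonconstant map from the smooth projective curve with function field `L` to `Y`, and
`canDeg ℂ L = 2 g - 2`. `lowCurves b {1}`: the closed curves in `Y` of geometric genus `≤ 1`, each
given by the set of the forms which vanish on it.

Theorem: for every orbifold pair of log general type of dimension `d > 0` there are a number `m` and
a form `B`, not vanishing on `X`, such that ALL `Y` as above have the following properties.
(1) `Y` is of general type and pseudo-geometrically hyperbolic. (2) All nonconstant maps `v` from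
curves of genus `≤ 1` to `Y` satisfy `B (g (v)) = 0`, or the rational map `g` is constant or not
defined on the image of `v`: so all rational and elliptic curves in all `Y` that are not contracted
in `X` lie over the same proper closed subset of `X`. (3) If `d ≤ 2`, then `Y` contains only finitely
many curves of genus `≤ 1`, and `Y` is geometrically hyperbolic modulo a closed subset if and only if
this subset contains all these curves.
-/

set_option autoImplicit false

namespace Pool.Agent.Results.MP_5b1cbc_ag.OrbifoldPointed

open MvPolynomial FF Pool.Agent.W603.LV Pool.Agent.Q271.RC Pool.Agent.Q186.RU Pool.Agent.Q96.OS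
open Pool.Agent.Q96.HE Pool.Agent.W602.RG
open Pool.Agent.W602.GT (GeneralType)

/-- See the explanation at the beginning of the file. -/
theorem result {N n d : ℕ} (hd : 0 < d) (K : Type) [Field K] [Algebra ℂ K] (a : Fin (N + 1) → K)
    (f : Fin (n + 1) → MvPolynomial (Fin (N + 1)) ℂ) (e : ℕ) (Q : MvPolynomial (Fin (n + 1)) ℂ)
    (hX : IsOrbPair d a f e Q) :
    ∃ (m : ℕ) (B : MvPolynomial (Fin (N + 1)) ℂ) (E : ℕ), B.IsHomogeneous E ∧ aeval a B ≠ 0 ∧
      ∀ (N' : ℕ) (K' : Type) [Field K'] [Algebra ℂ K'] [Algebra K K']
      [IsScalarTower ℂ K K'] (b : Fin (N' + 1) → K')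
      (g : Fin (N + 1) → MvPolynomial (Fin (N' + 1)) ℂ) (e' : ℕ), IsCover a b g e' →
      OrbOff m Q b {1} (fun i => bind₁ g (f i)) →
      GeneralType ℂ K' d ∧ PseudoGeomHyp ℂ b ∧
      (∀ (L : Type) [Field L] [Algebra ℂ L] [IsFF ℂ L] (v : Fin (N' + 1) → L), IsMap b {1} v →
        canDeg ℂ L ≤ 0 → aeval v (bind₁ g B) = 0 ∨ ¬ Nonconst (fun i => aeval v (g i))) ∧
      (d ≤ 2 → (lowCurves b {1}).Finite ∧
        ∀ D : Set (MvPolynomial (Fin (N' + 1)) ℂ), (∀ F ∈ D, ∃ E, F.IsHomogeneous E) →
          (GeomHypMod b D ↔ ∀ V ∈ lowCurves b {1}, D ⊆ V)) :=
  Pool.Agent.Q96.HE.main_pointed hd hX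

end Pool.Agent.Results.MP_5b1cbc_ag.OrbifoldPointed
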