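import Pool.Agent.Q183.UH.Pseudo

/-!
# Pseudo-geometric hyperbolicity along recurrent sequences of pointed maps

Let `k` be an algebraically closed field of characteristic zero with at most continuum many elements
and let `X` be an irreducible closed subvariety of projective space over `k`.  We consider sequences
of maps `f t : (C, c) → (X, Q)` from a pointed curve, or from any variety with a given point, that is
sequences of points of `X` over the function field `K` of `C` which specialise to the given point `Q`
at the point `c`, such that the homogeneous coordinates of `f t` satisfy linear recurrences in `t`.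
The following are equivalent:

(a) `X` is not uniruled (for instance `X` of general type and of positive dimension);

(b) for all `R` and `d` there are a proper closed subset `Z` of `X` and numbers `M ≥ 1` and `C` such
that for all extension fields `K` of `k` and all finite sequences `P 0, ..., P (l - 1)` of points of
`X` over `K` with recurrences of order at most `R` and degree at most `d`, for all `t` with
`C ≤ t ≤ l - M - C`, `P (t + M) = P t` or `P t` and `P (t + M)` are in `Z`;

(c) for all `R` and `d` there are a proper closed subset `Z` of `X` and a number `B` such that for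
all pointed varieties `(C, c)` and all points `Q` outside `Z`, all finite sequences of maps from
`(C, c)` to `(X, Q)` with such recurrences have at most `B` different members;

(d) for each `R` there is a proper closed subset `Z` of `X` such that for all points `Q` outside `Z`,
all sequences of maps from the pointed affine line to `(X, Q)` with recurrences of order at most `R`
with constant coefficients have finitely many different members.
-/

set_option autoImplicit false

namespace Pool.Agent.Results.MP_5b1cbc_ag.PointedRecurrences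

open MvPolynomial Cardinal Pool.Agent.Q183.UH Pool.Agent.H533R3.SL
open scoped LinearAlgebra.Projectivization

/-- The form `G` defines a proper closed subset of the variety of the forms in `FF`. -/
def Proper {N : ℕ} {k : Type} [Field k] (FF : Set (MvPolynomial (Fin (N + 1)) k))
    (G : MvPolynomial (Fin (N + 1)) k) : Prop :=
  (∃ e, G.IsHomogeneous e) ∧ G ∉ Ideal.span FF

theorem result {k : Type} [Field k] [CharZero k] [IsAlgClosed k] (hk : #k ≤ 𝔠) {N : ℕ}
    (FF : Set (MvPolynomial (Fin (N + 1)) k)) (D : ℕ)
    (hFF : ∀ F ∈ FF, ∃ e, e ≤ D ∧ F.IsHomogeneous e) (hprime : (Ideal.span FF).IsPrime) :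
    [¬ Uniruled (Ideal.span FF),
     ∀ R d : ℕ, ∃ (G : MvPolynomial (Fin (N + 1)) k) (M C : ℕ), Proper FF G ∧ 0 < M ∧
      ∀ (K : Type) [Field K] [Algebra k K] (l : ℕ) (P : ℕ → ℙ K (Fin (N + 1) → K)),
      FinPoints FF K R d l P → ∀ t, C ≤ t → t + M + C ≤ l →
      P (t + M) = P t ∨ InZ {G} (P t) ∧ InZ {G} (P (t + M)),
     ∀ R d : ℕ, ∃ (G : MvPolynomial (Fin (N + 1)) k) (B : ℕ), Proper FF G ∧
      ∀ (K : Type) [Field K] [Algebra k K] (O : Subalgebra k K) (ρ : O →ₐ[k] k)
        (Q : ℙ k (Fin (N + 1) → k)), ¬ InZ {G} Q →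
      ∀ (l : ℕ) (P : ℕ → ℙ K (Fin (N + 1) → K)), FinPoints FF K R d l P →
      (∀ t, t < l → MapsTo O ρ (P t) Q) → (P '' {t | t < l}).encard ≤ B,
     ∀ R : ℕ, ∃ G : MvPolynomial (Fin (N + 1)) k, Proper FF G ∧
      ∀ Q : ℙ k (Fin (N + 1) → k), ¬ InZ {G} Q →
      ∀ P : ℕ → ℙ (RatFunc k) (Fin (N + 1) → RatFunc k), CRecPoints FF (RatFunc k) R P →
      (∀ t, MapsTo (lineRing k) (lineEval k) (P t) Q) → (Set.range P).Finite].TFAE := by
  classical
  tfae_have 1 → 2 := by
    intro h R d
    obtain ⟨G, M, C, h1, h2, h3, h4⟩ := non_points hk FF hprime h (D + 1) (by omega)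
      (fun F hF => by
        obtain ⟨e, he, h⟩ := hFF F hF
        exact ⟨e, by omega, h⟩) R d
    exact ⟨G, M, C, ⟨h1, h2⟩, h3, h4⟩
  tfae_have 2 → 3 := by
    intro h R d
    obtain ⟨G, M, C, h1, h2, h3⟩ := h R d
    refine ⟨G, M + 2 * C, h1, fun K _ _ O ρ Q hQ l P hP hm => ?_⟩
    have h4 := fin_points_le (Z := InZ {G}) h2 (h3 K l P hP)
    have h5 : {t | t < l ∧ ¬ InZ {G} (P t)} = {t | t < l} := by
      ext t
      constructor
      · exact fun h => h.1
      · exact fun h => ⟨h, fun hz => hQ ((hm t h).inZ h1.1 hz)⟩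
    rw [h5] at h4
    exact h4
  tfae_have 3 → 4 := by
    intro h R
    obtain ⟨G, B, h1, h2⟩ := h R 0
    refine ⟨G, h1, fun Q hQ P hP hm => ?_⟩
    apply range_finite_of_shift (r := R)
    exact finite_of_bdd (B := B) fun l => h2 (RatFunc k) (lineRing k) (lineEval k) Q hQ l _
      (hP.fin 0 l) fun t _ => hm _
  tfae_have 4 → 1 := by
    intro h hu
    obtain ⟨n, hn⟩ := curve_closed FF hu
    obtain ⟨G, hG, h1⟩ := h n
    -- a coordinate which does not vanish
    obtain ⟨i, hi⟩ : ∃ i, (X i : MvPolynomial (Fin (N + 1)) k) ∉ Ideal.span FF := by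
      by_contra hall
      push Not at hall
      obtain ⟨L, _, _, p, hp1, -, i, j, hij⟩ := hu
      apply hij
      have h2 : ∀ i, p i = 0 := fun i => by
        have h3 := hp1 (X i) (hall i)
        rwa [aeval_X] at h3
      rw [h2 i, h2 j]
    obtain ⟨e, he⟩ := hG.1
    obtain ⟨q, hq1, hq2, hq3, hq4⟩ := hn (G * X i) ⟨e + 1, he.mul (isHomogeneous_X k i)⟩
      (hprime.mul_notMem hG.2 hi)
    rw [map_mul, aeval_X] at hq4
    have hne : (fun i => (q i).eval 1) ≠ 0 := fun h0 => right_ne_zero_of_mul hq4 (congrFun h0 i)
    obtain ⟨P, hP1, hP2, hP3⟩ := pointed_seq hq1 hq2 hq3 hne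
    refine hP3 (h1 _ ?_ P hP1 hP2)
    rw [inZ_mk (by
      intro G' hG'
      rw [Set.mem_singleton_iff.1 hG']
      exact hG.1)]
    intro h2
    exact left_ne_zero_of_mul hq4 (h2 G rfl)
  tfae_finish

end Pool.Agent.Results.MP_5b1cbc_ag.PointedRecurrences
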